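import Pool.Graph.R_pool_sql_team_seeded_47a924f7.Results.MP_3569d7_al.IrrationalFmr

/-!
# The values of the fractional minimal rank over an arbitrary field

Over every field `F` the set `V` of the values `fmr(A)` of partial matrices `A` is closed under
addition (`fmr` is additive on direct sums), and the set `N` of the values which are attained by
no `b` in one of their partial matrices absorbs `V`.  Together with one partial matrix with
`fmr = k + (√5 - 1) / 2` (of an earlier run) this gives, over every field, unattained irrational values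
which are dense modulo one: for every real `x` and every `ε > 0` all sufficiently large integers `n`
have such a value at distance less than `ε` from `x + n`.
-/

set_option autoImplicit false

namespace Pool.Agent.Results.MP_3569d7_al.ValueMonoid

open Matrix Pool.Agent.Results.MP_3569d7_al.IrrationalFmr

universe u

variable {F : Type u} [Field F]

/-- the values of the fractional minimal rank of partial matrices over `F` -/
def V (F : Type u) [Field F] : Set ℝ :=
  {x | ∃ (m n : ℕ) (A : Fin m → Fin n → Option F), fmr A = x}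

/-- the values of the fractional minimal rank of those partial matrices over `F` for which the
infimum is not attained -/
def N (F : Type u) [Field F] : Set ℝ :=
  {x | ∃ (m n : ℕ) (A : Fin m → Fin n → Option F), fmr A = x ∧
    ∀ b : ℕ, 1 ≤ b → fmr A < (mr (tens A b) : ℝ) / (b : ℝ)}

section basic

variable {ι κ ι' κ' : Type} [Fintype κ] [Fintype κ']

theorem exists_completion (A : ι → κ → Option F) : ∃ B : Matrix ι κ F, IsCompletion A B ∧
    B.rank = mr A := by
  have h : {r | ∃ B : Matrix ι κ F, IsCompletion A B ∧ B.rank = r}.Nonempty :=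
    ⟨_, fun i j => (A i j).getD 0, fun i j a h => by simp [h], rfl⟩
  exact Nat.sInf_mem h

theorem mr_le {A : ι → κ → Option F} {B : Matrix ι κ F} (h : IsCompletion A B) : mr A ≤ B.rank :=
  Nat.sInf_le ⟨B, h, rfl⟩

theorem mr_sub_le (A : ι → κ → Option F) (f : ι' → ι) (g : κ' → κ) :
    mr (fun i j => A (f i) (g j)) ≤ mr A := by
  obtain ⟨B, h1, h2⟩ := exists_completion A
  rw [← h2]
  refine (mr_le (B := B.submatrix f g) fun i j a h => h1 _ _ a h).trans ?_
  exact Matrix.rank_submatrix_le B f g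

theorem mr_equiv (A : ι → κ → Option F) (f : ι' ≃ ι) (g : κ' ≃ κ) :
    mr (fun i j => A (f i) (g j)) = mr A := by
  refine le_antisymm (mr_sub_le A f g) ?_
  have h := mr_sub_le (fun i j => A (f i) (g j)) f.symm g.symm
  simpa using h

theorem fmr_equiv (A : ι → κ → Option F) (f : ι' ≃ ι) (g : κ' ≃ κ) :
    fmr (fun i j => A (f i) (g j)) = fmr A := by
  unfold fmr
  congr 1
  funext b
  have h := mr_equiv (tens A b.1) (f.prodCongr (Equiv.refl (Fin b.1)))
    (g.prodCongr (Equiv.refl (Fin b.1)))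
  have h2 : tens (fun i j => A (f i) (g j)) b.1 = fun i j => tens A b.1
      ((f.prodCongr (Equiv.refl (Fin b.1))) i) ((g.prodCongr (Equiv.refl (Fin b.1))) j) := rfl
  rw [h2, h]

theorem fmr_le (A : ι → κ → Option F) {b : ℕ} (hb : 1 ≤ b) :
    fmr A ≤ (mr (tens A b) : ℝ) / (b : ℝ) := by
  have hbdd : BddBelow (Set.range fun c : {c : ℕ // 1 ≤ c} =>
      (mr (tens A c.1) : ℝ) / (c.1 : ℝ)) := by
    refine ⟨0, ?_⟩
    rintro _ ⟨c, rfl⟩
    positivity
  exact ciInf_le hbdd ⟨b, hb⟩

theorem exists_close (A : ι → κ → Option F) {ε : ℝ} (hε : 0 < ε) :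
    ∃ b : ℕ, 1 ≤ b ∧ (mr (tens A b) : ℝ) / (b : ℝ) < fmr A + ε := by
  have : Nonempty {b : ℕ // 1 ≤ b} := ⟨⟨1, le_rfl⟩⟩
  obtain ⟨⟨b, hb⟩, h⟩ := exists_lt_of_ciInf_lt (lt_add_of_pos_right (fmr A) hε)
  exact ⟨b, hb, h⟩

/-- the direct sum, with specified zero blocks off the diagonal -/
def dsum (A : ι → κ → Option F) (B : ι' → κ' → Option F) : ι ⊕ ι' → κ ⊕ κ' → Option F
  | Sum.inl i, Sum.inl j => A i j
  | Sum.inr i, Sum.inr j => B i j
  | Sum.inl _, Sum.inr _ => some 0
  | Sum.inr _, Sum.inl _ => some 0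

end basic

section sums

variable {ι κ ι' κ' : Type} [Fintype ι] [Fintype ι'] [Fintype κ] [Fintype κ']

theorem mr_dsum (A : ι → κ → Option F) (B : ι' → κ' → Option F) :
    mr (dsum A B) = mr A + mr B := by
  apply le_antisymm
  · obtain ⟨X, hX, hX'⟩ := exists_completion A
    obtain ⟨Y, hY, hY'⟩ := exists_completion B
    have h : IsCompletion (dsum A B) (fromBlocks X 0 0 Y) := by
      rintro (i | i) (j | j) a h
      · exact hX i j a h
      · have h1 : (some 0 : Option F) = some a := h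
        rw [fromBlocks_apply₁₂, Matrix.zero_apply]
        exact Option.some.inj h1
      · have h1 : (some 0 : Option F) = some a := h
        rw [fromBlocks_apply₂₁, Matrix.zero_apply]
        exact Option.some.inj h1
      · exact hY i j a h
    refine (mr_le h).trans ?_
    have h1 := Pool.Agent.T6.H48.FM.rank_blocks_le X (0 : Matrix ι κ' F) (0 : Matrix ι' κ F) Y
    rw [Matrix.rank_zero, Matrix.rank_zero] at h1
    omega
  · obtain ⟨M, hM, hM'⟩ := exists_completion (dsum A B)
    have h1 : M = fromBlocks M.toBlocks₁₁ M.toBlocks₁₂ 0 M.toBlocks₂₂ := by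
      conv_lhs => rw [← fromBlocks_toBlocks M]
      congr 1
      ext i j
      exact hM (Sum.inr i) (Sum.inl j) 0 rfl
    have h2 := Pool.Agent.T6.H48.FM.ModTRI.tri1 F ι ι' κ κ' M.toBlocks₁₁ M.toBlocks₁₂ M.toBlocks₂₂
    rw [← h1, hM'] at h2
    have h3 : mr A ≤ M.toBlocks₁₁.rank := mr_le fun i j a h => hM (Sum.inl i) (Sum.inl j) a h
    have h4 : mr B ≤ M.toBlocks₂₂.rank := mr_le fun i j a h => hM (Sum.inr i) (Sum.inr j) a h
    omega

theorem mr_tens_dsum (A : ι → κ → Option F) (B : ι' → κ' → Option F) (b : ℕ) :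
    mr (tens (dsum A B) b) = mr (tens A b) + mr (tens B b) := by
  rw [← mr_dsum]
  have h := mr_equiv (dsum (tens A b) (tens B b)) (Equiv.sumProdDistrib ι ι' (Fin b))
    (Equiv.sumProdDistrib κ κ' (Fin b))
  rw [← h]
  congr 1
  funext p q
  obtain ⟨i | i, s⟩ := p <;> obtain ⟨j | j, t⟩ := q <;> simp [tens, dsum]

theorem mr_tens_mul (A : ι → κ → Option F) (c b : ℕ) :
    mr (tens A (c * b)) ≤ c * mr (tens A b) := by
  classical
  obtain ⟨X, hX, hX'⟩ := exists_completion (tens A b)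
  let G : Matrix (Fin c × (ι × Fin b)) (Fin c × (κ × Fin b)) F :=
    Matrix.of fun p q => if p.1 = q.1 then X p.2 q.2 else 0
  have hG : G.rank = c * mr (tens A b) := by
    rw [(Pool.Agent.T6.H48.FM.mTRI F).2 (Fin c) (ι × Fin b) (κ × Fin b) G (fun i j hij x y => by
      simp [G, hij])]
    have h1 : ∀ i : Fin c, (Matrix.of fun x y => G (i, x) (i, y)).rank = mr (tens A b) := by
      intro i
      rw [← hX']
      congr 1
      ext x y
      simp [G]
    rw [Finset.sum_congr rfl fun i _ => h1 i]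
    simp
  let f : ι × Fin (c * b) → Fin c × (ι × Fin b) := fun p =>
    ((finProdFinEquiv.symm p.2).1, (p.1, (finProdFinEquiv.symm p.2).2))
  let g : κ × Fin (c * b) → Fin c × (κ × Fin b) := fun p =>
    ((finProdFinEquiv.symm p.2).1, (p.1, (finProdFinEquiv.symm p.2).2))
  have h : IsCompletion (tens A (c * b)) (G.submatrix f g) := by
    rintro ⟨i, s⟩ ⟨j, t⟩ a h
    have h1 : (A i j).map (fun a => if s = t then a else 0) = some a := h
    obtain ⟨a', ha', rfl⟩ := Option.map_eq_some_iff.1 h1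
    have h2 : X (i, (finProdFinEquiv.symm s).2) (j, (finProdFinEquiv.symm t).2) =
        if (finProdFinEquiv.symm s).2 = (finProdFinEquiv.symm t).2 then a' else 0 :=
      hX _ _ _ (by simp [tens, ha'])
    change (if (finProdFinEquiv.symm s).1 = (finProdFinEquiv.symm t).1 then
      X (i, (finProdFinEquiv.symm s).2) (j, (finProdFinEquiv.symm t).2) else 0) = _
    rw [h2]
    by_cases hst : s = t
    · subst hst
      simp
    · rw [if_neg hst]
      by_cases h3 : (finProdFinEquiv.symm s).1 = (finProdFinEquiv.symm t).1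
      · rw [if_pos h3, if_neg]
        intro h4
        exact hst (finProdFinEquiv.symm.injective (Prod.ext h3 h4))
      · rw [if_neg h3]
  calc mr (tens A (c * b)) ≤ (G.submatrix f g).rank := mr_le h
    _ ≤ G.rank := Matrix.rank_submatrix_le G f g
    _ = c * mr (tens A b) := hG

/-- the fractional minimal rank is additive on direct sums -/
theorem fmr_dsum (A : ι → κ → Option F) (B : ι' → κ' → Option F) :
    fmr (dsum A B) = fmr A + fmr B := by
  apply le_antisymm
  · apply le_of_forall_pos_lt_add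
    intro ε hε
    obtain ⟨b, hb, h1⟩ := exists_close A (half_pos hε)
    obtain ⟨c, hc, h2⟩ := exists_close B (half_pos hε)
    have hbc : 1 ≤ c * b := Nat.mul_pos hc hb
    have hb0 : (0 : ℝ) < b := by exact_mod_cast hb
    have hc0 : (0 : ℝ) < c := by exact_mod_cast hc
    have h3 : (mr (tens A (c * b)) : ℝ) ≤ c * mr (tens A b) := by exact_mod_cast mr_tens_mul A c b
    have h4 : (mr (tens B (c * b)) : ℝ) ≤ b * mr (tens B c) := by
      rw [mul_comm c b]
      exact_mod_cast mr_tens_mul B b c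
    calc fmr (dsum A B) ≤ (mr (tens (dsum A B) (c * b)) : ℝ) / ((c * b : ℕ) : ℝ) := fmr_le _ hbc
      _ = ((mr (tens A (c * b)) : ℝ) + mr (tens B (c * b))) / (c * b) := by
          rw [mr_tens_dsum]; push_cast; rfl
      _ ≤ (c * mr (tens A b) + b * mr (tens B c)) / (c * b) := by gcongr
      _ = (mr (tens A b) : ℝ) / b + (mr (tens B c) : ℝ) / c := by field_simp
      _ < fmr A + fmr B + ε := by linarith
  · have : Nonempty {b : ℕ // 1 ≤ b} := ⟨⟨1, le_rfl⟩⟩
    refine le_ciInf fun b => ?_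
    rw [mr_tens_dsum]
    have h1 := fmr_le A b.2
    have h2 := fmr_le B b.2
    push_cast
    rw [add_div]
    linarith

end sums

/-! ### The value sets -/

theorem fin_sum {m n m' n' : ℕ} (A : Fin m → Fin n → Option F) (B : Fin m' → Fin n' → Option F) :
    ∃ C : Fin (m + m') → Fin (n + n') → Option F, fmr C = fmr A + fmr B ∧
      ∀ b : ℕ, mr (tens C b) = mr (tens A b) + mr (tens B b) := by
  refine ⟨fun i j => dsum A B (finSumFinEquiv.symm i) (finSumFinEquiv.symm j), ?_, fun b => ?_⟩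
  · rw [fmr_equiv (dsum A B) finSumFinEquiv.symm finSumFinEquiv.symm, fmr_dsum]
  · rw [← mr_tens_dsum]
    exact mr_equiv (tens (dsum A B) b)
      (((finSumFinEquiv (m := m) (n := m')).symm).prodCongr (Equiv.refl (Fin b)))
      (((finSumFinEquiv (m := n) (n := n')).symm).prodCongr (Equiv.refl (Fin b)))

theorem V_add {x y : ℝ} (hx : x ∈ V F) (hy : y ∈ V F) : x + y ∈ V F := by
  obtain ⟨m, n, A, rfl⟩ := hx
  obtain ⟨m', n', B, rfl⟩ := hy
  obtain ⟨C, hC, -⟩ := fin_sum A B
  exact ⟨_, _, C, hC⟩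

theorem N_add {x y : ℝ} (hx : x ∈ N F) (hy : y ∈ V F) : x + y ∈ N F := by
  obtain ⟨m, n, A, rfl, hA⟩ := hx
  obtain ⟨m', n', B, rfl⟩ := hy
  obtain ⟨C, hC, hC'⟩ := fin_sum A B
  refine ⟨_, _, C, hC, fun b hb => ?_⟩
  rw [hC, hC']
  have h1 := hA b hb
  have h2 := fmr_le B hb
  push_cast
  rw [add_div]
  linarith

theorem zero_mem : (0 : ℝ) ∈ V F := by
  refine ⟨0, 0, fun i => i.elim0, ?_⟩
  have h : ∀ b : ℕ, mr (tens (fun i : Fin 0 => (i.elim0 : Fin 0 → Option F)) b) = 0 := by
    intro b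
    obtain ⟨B, -, hB⟩ := exists_completion (tens (fun i : Fin 0 => (i.elim0 : Fin 0 → Option F)) b)
    have h1 : B.rank ≤ Fintype.card (Fin 0 × Fin b) := Matrix.rank_le_card_width B
    simp at h1
    omega
  have : Nonempty {b : ℕ // 1 ≤ b} := ⟨⟨1, le_rfl⟩⟩
  unfold fmr
  simp only [h, Nat.cast_zero, zero_div]
  exact ciInf_const

theorem one_mem : (1 : ℝ) ∈ V F := by
  refine ⟨1, 1, fun _ _ => some 1, ?_⟩
  have h : ∀ b : ℕ, mr (tens (fun _ _ => some 1 : Fin 1 → Fin 1 → Option F) b) = b := by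
    intro b
    obtain ⟨B, hB, hB'⟩ := exists_completion (tens (fun _ _ => some 1 : Fin 1 → Fin 1 → Option F) b)
    have h1 : B = 1 := by
      ext ⟨i, s⟩ ⟨j, t⟩
      rw [hB (i, s) (j, t) (if s = t then 1 else 0) rfl, Matrix.one_apply]
      have : i = j := Subsingleton.elim _ _
      subst this
      simp
    rw [← hB', h1, Matrix.rank_one]
    simp
  have : Nonempty {b : ℕ // 1 ≤ b} := ⟨⟨1, le_rfl⟩⟩
  have h2 : (fun b : {b : ℕ // 1 ≤ b} =>
      (mr (tens (fun _ _ => some 1 : Fin 1 → Fin 1 → Option F) b.1) : ℝ) / (b.1 : ℝ)) =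
        fun _ => 1 := by
    funext b
    rw [h]
    have : (0 : ℝ) < b.1 := by exact_mod_cast b.2
    field_simp
  unfold fmr
  rw [h2]
  exact ciInf_const

theorem nat_mem (i : ℕ) : (i : ℝ) ∈ V F := by
  induction i with
  | zero => simpa using zero_mem
  | succ i ih =>
    rw [Nat.cast_succ]
    exact V_add ih one_mem

theorem N_sub_V {x : ℝ} (hx : x ∈ N F) : x ∈ V F := by
  obtain ⟨m, n, A, h, -⟩ := hx
  exact ⟨m, n, A, h⟩

/-- the golden section, minus one -/
noncomputable def xi : ℝ := (√5 - 1) / 2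

theorem xi_irrational : Irrational xi := by
  have h5 : Irrational (√5) := by
    have := Nat.Prime.irrational_sqrt (p := 5) (by norm_num)
    exact_mod_cast this
  have h : xi = ((-1 / 2 : ℚ) : ℝ) + ((1 / 2 : ℚ) : ℝ) * √5 := by
    unfold xi
    push_cast
    ring
  rw [h]
  exact (h5.ratCast_mul (by norm_num)).ratCast_add _

theorem comb_mem {k : ℕ} (hk : (k : ℝ) + xi ∈ N F) (i j : ℕ) :
    (i : ℝ) + ((j + 1 : ℕ) : ℝ) * (k + xi) ∈ N F := by
  induction j with
  | zero =>
    have h := N_add hk (nat_mem (F := F) i)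
    have e : (i : ℝ) + ((0 + 1 : ℕ) : ℝ) * (k + xi) = k + xi + i := by push_cast; ring
    rw [e]
    exact h
  | succ j ih =>
    have h := N_add ih (N_sub_V hk)
    have e : (i : ℝ) + ((j + 1 + 1 : ℕ) : ℝ) * (k + xi) =
        i + ((j + 1 : ℕ) : ℝ) * (k + xi) + (k + xi) := by push_cast; ring
    rw [e]
    exact h

theorem comb_irrational (k i j : ℕ) (hj : 1 ≤ j) : Irrational ((i : ℝ) + (j : ℝ) * (k + xi)) := by
  have h : (i : ℝ) + (j : ℝ) * (k + xi) = ((i + j * k : ℚ) : ℝ) + ((j : ℚ) : ℝ) * xi := by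
    push_cast
    ring
  rw [h]
  refine (xi_irrational.ratCast_mul ?_).ratCast_add _
  have : (j : ℚ) ≠ 0 := by
    have : j ≠ 0 := by omega
    exact_mod_cast this
  exact this

theorem dens (x ε : ℝ) (hε : 0 < ε) : ∃ (J : ℕ) (Z : ℤ), 1 ≤ J ∧ |(J : ℝ) * xi + Z - x| < ε := by
  obtain ⟨n, hn⟩ := exists_nat_one_div_lt hε
  obtain ⟨j, k, hk, -, hjk⟩ := Real.exists_int_int_abs_mul_sub_le xi (Nat.succ_pos n)
  obtain ⟨θ, hθ⟩ : ∃ θ : ℝ, θ = k * xi - j := ⟨_, rfl⟩
  have h1 : |θ| < ε := by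
    rw [hθ]
    refine hjk.trans_lt (lt_of_le_of_lt ?_ hn)
    apply one_div_le_one_div_of_le
    · positivity
    · push_cast
      linarith
  have h0 : θ ≠ 0 := by
    rw [hθ]
    intro h
    have h2 : Irrational ((k : ℝ) * xi) := xi_irrational.intCast_mul hk.ne'
    exact h2 ⟨(j : ℚ), by push_cast; linarith⟩
  -- an integer `l` with `(x - l) / θ ≥ 1`
  obtain ⟨l, hl⟩ : ∃ l : ℤ, 1 ≤ (x - l) / θ := by
    rcases lt_or_gt_of_ne h0 with h | h
    · refine ⟨⌈x - θ⌉, ?_⟩
      rw [le_div_iff_of_neg h, one_mul]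
      have := Int.le_ceil (x - θ)
      linarith
    · refine ⟨⌊x - θ⌋, ?_⟩
      rw [le_div_iff₀ h, one_mul]
      have := Int.floor_le (x - θ)
      linarith
  obtain ⟨t, ht⟩ : ∃ t : ℕ, t = ⌊(x - l) / θ⌋₊ := ⟨_, rfl⟩
  have ht1 : 1 ≤ t := by
    rw [ht]
    exact Nat.le_floor (by exact_mod_cast hl)
  have h2 : (t : ℝ) ≤ (x - l) / θ := by
    rw [ht]
    exact Nat.floor_le (by linarith)
  have h3 : (x - l) / θ < t + 1 := by
    rw [ht]
    exact Nat.lt_floor_add_one _
  have h4 : |(t : ℝ) * θ + l - x| < ε := by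
    have e : (t : ℝ) * θ + l - x = θ * (t - (x - l) / θ) := by
      field_simp
      ring
    rw [e, abs_mul]
    have h5 : |(t : ℝ) - (x - l) / θ| ≤ 1 := by
      rw [abs_le]
      constructor <;> linarith
    calc |θ| * |(t : ℝ) - (x - l) / θ| ≤ |θ| * 1 := by gcongr
      _ < ε := by rw [mul_one]; exact h1
  obtain ⟨k', rfl⟩ := Int.eq_ofNat_of_zero_le hk.le
  have hk' : 1 ≤ k' := by exact_mod_cast hk
  refine ⟨t * k', l - t * j, Nat.mul_pos ht1 hk', ?_⟩
  have e : ((t * k' : ℕ) : ℝ) * xi + ((l - t * j : ℤ) : ℝ) - x = (t : ℝ) * θ + l - x := by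
    rw [hθ]
    push_cast
    ring
  rw [e]
  exact h4

/-- **Main theorem.** Let `F` be any field.
(1) `fmr` is additive on direct sums of partial matrices.
(2) The set `V` of the values of `fmr` over `F` contains `0` and `1` and is closed under addition.
(3) If `x` is the value of a partial matrix whose infimum is not attained and `y ∈ V` then so is
`x + y`.
(4) For some natural number `k` all the numbers `i + j (k + (√5 - 1) / 2)` with `i ≥ 0`, `j ≥ 1` are
irrational and are values of partial matrices with unattained infimum.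
(5) The irrational unattained values are dense modulo one: for every real `x` and `ε > 0` there is one
in `(x + n - ε, x + n + ε)` for all large `n`. -/
theorem result (F : Type u) [Field F] :
    (∀ (m n m' n' : ℕ) (A : Fin m → Fin n → Option F) (B : Fin m' → Fin n' → Option F),
      fmr (dsum A B) = fmr A + fmr B) ∧
    ((0 : ℝ) ∈ V F ∧ (1 : ℝ) ∈ V F ∧ ∀ x ∈ V F, ∀ y ∈ V F, x + y ∈ V F) ∧
    (∀ x ∈ N F, ∀ y ∈ V F, x + y ∈ N F) ∧
    (∃ k : ℕ, ∀ i j : ℕ, 1 ≤ j → (i : ℝ) + j * (k + (√5 - 1) / 2) ∈ N F ∧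
      Irrational ((i : ℝ) + j * (k + (√5 - 1) / 2))) ∧
    ∀ x ε : ℝ, 0 < ε → ∃ M : ℕ, ∀ n : ℕ, M ≤ n → ∃ y ∈ N F, Irrational y ∧ |y - (x + n)| < ε := by
  obtain ⟨m, n, k, A, h1, h2, h3⟩ := IrrationalFmr.result F
  have hk : (k : ℝ) + xi ∈ N F := ⟨m, n, A, h2, h3⟩
  have key : ∀ i j : ℕ, 1 ≤ j → (i : ℝ) + j * (k + xi) ∈ N F := by
    intro i j hj
    obtain ⟨j', rfl⟩ := Nat.exists_eq_add_of_le' hj
    exact comb_mem hk i j'
  refine ⟨fun m n m' n' A B => fmr_dsum A B, ⟨zero_mem, one_mem, fun x hx y hy => V_add hx hy⟩,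
    fun x hx y hy => N_add hx hy,
    ⟨k, fun i j hj => ⟨key i j hj, comb_irrational k i j hj⟩⟩, ?_⟩
  intro x ε hε
  obtain ⟨J, Z, hJ, hZ⟩ := dens x ε hε
  refine ⟨((J * k : ℤ) - Z).toNat, fun n hn => ?_⟩
  obtain ⟨i, hi⟩ : ∃ i : ℕ, (i : ℤ) = n + Z - J * k :=
    ⟨_, Int.toNat_of_nonneg (by
      have := Int.self_le_toNat ((J * k : ℤ) - Z)
      have h5 : ((((J * k : ℤ) - Z).toNat : ℕ) : ℤ) ≤ n := by exact_mod_cast hn
      linarith)⟩
  refine ⟨_, key i J hJ, comb_irrational k i J hJ, ?_⟩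
  have hi' : (i : ℝ) = n + Z - J * k := by exact_mod_cast hi
  have e : (i : ℝ) + J * (k + xi) - (x + n) = (J : ℝ) * xi + Z - x := by
    rw [hi']
    ring
  rw [e]
  exact hZ

end Pool.Agent.Results.MP_3569d7_al.ValueMonoid
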